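import Pool.Agent.W_7d29a1_PL.DefsPL

/-!
Theorem ALLN (`d = 2`): at almost every tilt of very strong disorder the variance of the free energy
is at least a power of the length, at all large lengths. Definitions and frozen statements of the
leaves (helper43).
-/

namespace Pool.Agent.W_7d29a1_ALL

open MeasureTheory ProbabilityTheory Filter Topology Pool.Agent.W_MP_7d29a1_pr
  Pool.Agent.W_7d29a1_h46 Pool.Agent.W_7d29a1_h46u Pool.Agent.W_7d29a1_D2.B35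
  Pool.Agent.W_7d29a1_Q29 Pool.Agent.W_7d29a1_R34 Pool.Agent.W_7d29a1_SP

/-- The variances are at most `K` up to the time `n`. -/
def Vb {d : ℕ} (ρ : Measure ℝ) (β : ℝ) (h : Vec d) (n : ℕ) (K : ℝ) : Prop :=
  ∀ m : ℕ, m ≤ n → Va ρ β h m ≤ K

/-- The upper curvature bound at `k`, seen from `h`. -/
def Cv (ρ : Measure ℝ) (β M : ℝ) (h v k : Vec 2) : Prop :=
  lam ρ β k ≤ lam ρ β h + inner ℝ v (k - h) + M * ‖k - h‖ ^ 2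

open Classical in
/-- The mean mass outside of the window of radius `w` at the time `t`. -/
noncomputable def Lkm (ρ : Measure ℝ) (β : ℝ) (h v : Vec 2) (N t : ℕ) (w : ℝ) : ℝ :=
  ∫ η, (1 - ∑ y ∈ (boxF 2 t).filter (fun y => ∀ j, |(emb y - (t : ℝ) • v) j| < w),
    Qt β h N t y η) ∂(law 2 ρ)

/-- The data at one scale: the fluctuations at `h` are small up to the time `T`, and there are four
tilts at the distance `r` with small fluctuations up to the time `N`. -/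
structure Sc (ρ : Measure ℝ) (β c₀ M C : ℝ) (h v : Vec 2) (N T : ℕ) (Φ r : ℝ) : Prop where
  loc : Loc1 ρ β h c₀
  hN : 1 ≤ N
  hΦ : 1 ≤ Φ
  hT : C * ((N : ℝ) + 1) ^ 4 ≤ T
  fl : ∀ k : ℕ, k ≤ T → En ρ β h k ≤ Φ ∧ Fn ρ β h k ≤ Φ
  hr : 0 < r
  hNr : Φ ≤ N * r ^ 2
  til : ∀ (j : Fin 2) (s : ℝ), (s = 1 ∨ s = -1) → ∃ k : Vec 2,
    ‖k - h - (s * r) • ej j‖ ≤ r / 9 ∧ Cv ρ β M h v k ∧ ∀ t : ℕ, t ≤ N → Fn ρ β k t ≤ Φ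

section Leaves

variable (ρ : Measure ℝ) (β : ℝ)

/-- LEAKS: one scale of tilts bounds the leak. -/
def LeakS : Prop := ∀ c₀ M : ℝ, 0 < c₀ → 1 ≤ M → ∃ C : ℝ, 1 ≤ C ∧
  ∀ (h v : Vec 2) (N T : ℕ) (Φ r : ℝ), Sc ρ β c₀ M C h v N T Φ r →
    ∀ t : ℕ, t ≤ N → Lkm ρ β h v N t (C * N * r) ≤ 1 / 8

/-- BUDS: the budget at one scale. -/
def BudS : Prop := ∀ c₀ M : ℝ, 0 < c₀ → 1 ≤ M → ∃ C : ℝ, 1 ≤ C ∧
  ∀ (h v : Vec 2) (N T : ℕ) (Φ r V : ℝ), Sc ρ β c₀ M C h v N T Φ r → 1 ≤ V → Va ρ β h N ≤ V →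
    Pool.Agent.W_7d29a1_PL.Bd ρ β h N (Real.log (C * (N * r ^ 2) * V)) C

/-- HOLE: near a bad tilt there is a hole of the set of the bad tilts, at every scale. -/
def HoleP : Prop := ∀ g M : ℝ, 0 < g → 1 ≤ M → ∃ c₁ : ℝ, 0 < c₁ ∧ ∀ c : ℝ, 0 < c → c ≤ c₁ →
  ∀ (h v : Vec 2) (δ : ℝ), 0 < δ →
    lam ρ β h + g ≤ Real.log (Phi h) + Real.log (∫ t, Real.exp (β * t) ∂ρ) →
    (∀ k : Vec 2, ‖k - h‖ ≤ δ → Cv ρ β M h v k) → ∃ n₀ : ℕ, ∀ n N : ℕ, n₀ ≤ n →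
      (n : ℝ) ^ (1 / 160 : ℝ) ≤ N → (N : ℝ) ≤ (n : ℝ) ^ (1 / 80 : ℝ) →
      Vb ρ β h n ((n : ℝ) ^ c) → ∀ r : ℝ, r = (n : ℝ) ^ c / Real.sqrt N →
        ∃ (j : Fin 2) (s : ℝ), (s = 1 ∨ s = -1) ∧
          ∀ k : Vec 2, ‖k - h - (s * r) • ej j‖ ≤ r / 9 → ¬ Vb ρ β k n ((n : ℝ) ^ c)

/-- The theorem. -/
def MainAL : Prop := ∀ᵐ h : Vec 2, VSD ρ β h → ∃ c : ℝ, 0 < c ∧
  ∀ᶠ n : ℕ in atTop, (n : ℝ) ^ c ≤ Va ρ β h n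

end Leaves

/-- POR (pure): a set with holes at `I` scales is small. -/
def PorP : Prop := ∃ c₂ : ℝ, 0 < c₂ ∧ c₂ < 1 ∧ ∀ R : ℝ, ∃ C : ℝ, 0 ≤ C ∧
  ∀ (H : Set (Vec 2)) (I : ℕ) (r : ℕ → ℝ), H ⊆ Metric.closedBall 0 R → (∀ i, 0 < r i) →
    r 0 ≤ 1 → (∀ i, 40 * r (i + 1) ≤ r i) →
    (∀ h ∈ H, ∀ i < I, ∃ p : Vec 2, ‖p - h‖ ≤ r i ∧ ∀ k ∈ H, r i / 9 < ‖k - p‖) →
      volume H ≤ ENNReal.ofReal (C * c₂ ^ I)

/-- CURV': almost every tilt has an upper curvature bound in all directions. -/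
def CurvA (ρ : Measure ℝ) (β : ℝ) : Prop := ∀ᵐ h : Vec 2, ∃ (v : Vec 2) (M δ : ℝ), 1 ≤ M ∧
  0 < δ ∧ ∀ k : Vec 2, ‖k - h‖ ≤ δ → Cv ρ β M h v k

end Pool.Agent.W_7d29a1_ALL
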